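import Pool.Agent.MNW.StmtsT

set_option autoImplicit false

/-! MNW, row BLD (helper13): the branch lemma downwards. -/

namespace Pool.Agent.MNW.H13

open Pool.Agent.MNT Pool.Agent.MNW
open scoped Classical

section tree

variable {V : Type} [Fintype V] [PartialOrder V] [OrderTop V] (T : MNT.Tree V)

theorem kid_lt {v c : V} (h : c ∈ T.kids v) : c < v := by
  have h1 := (T.mem_kids v c).1 h
  have h2 := T.lt_par c h1.1
  rwa [h1.2] at h2

theorem ex_kid (v w : V) (h : v < w) : ∃ c ∈ T.kids w, v ≤ c := by
  induction v using (wellFounded_gt (α := V)).induction with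
  | _ v ih =>
    have hv : v ≠ ⊤ := ne_top_of_lt h
    rcases (T.par_le v w h).eq_or_lt with h1 | h1
    · exact ⟨v, (T.mem_kids w v).2 ⟨hv, h1⟩, le_rfl⟩
    · obtain ⟨c, hc, h2⟩ := ih (T.par v) (T.lt_par v hv) h1
      exact ⟨c, hc, (T.lt_par v hv).le.trans h2⟩

theorem sum_lt_kids (f : V → ℝ) (v : V) :
    ∑ d with d < v, f d = ∑ c ∈ T.kids v, (f c + ∑ d with d < c, f d) := by
  have h1 : (Finset.univ.filter fun d : V => d < v) =
      (T.kids v).biUnion fun c => insert c (Finset.univ.filter fun d : V => d < c) := by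
    ext d
    rw [Finset.mem_filter, Finset.mem_biUnion]
    constructor
    · rintro ⟨-, hd⟩
      obtain ⟨c, hc, h2⟩ := ex_kid T d v hd
      refine ⟨c, hc, ?_⟩
      rw [Finset.mem_insert, Finset.mem_filter]
      rcases eq_or_lt_of_le h2 with h3 | h3
      · exact Or.inl h3
      · exact Or.inr ⟨Finset.mem_univ _, h3⟩
    · rintro ⟨c, hc, hd⟩
      refine ⟨Finset.mem_univ _, ?_⟩
      rw [Finset.mem_insert, Finset.mem_filter] at hd
      rcases hd with rfl | ⟨-, hd⟩
      · exact kid_lt T hc
      · exact hd.trans (kid_lt T hc)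
  rw [h1, Finset.sum_biUnion]
  · refine Finset.sum_congr rfl fun c _ => ?_
    rw [Finset.sum_insert]
    rw [Finset.mem_filter]
    exact fun h => lt_irrefl _ h.2
  · intro c hc c' hc' hne
    rw [Function.onFun, Finset.disjoint_left]
    intro d hd hd'
    apply hne
    have hle : ∀ {x : V}, d ∈ insert x (Finset.univ.filter fun d : V => d < x) → d ≤ x := by
      intro x hx
      rw [Finset.mem_insert, Finset.mem_filter] at hx
      rcases hx with rfl | ⟨-, hx⟩
      · exact le_rfl
      · exact hx.le
    exact T.kids_disj hc hc' (hle hd) (hle hd')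

end tree

theorem bld (hBED : BedStmt) (hMGR : MgrStmt) : BldStmt := by
  intro g m A u t k hN V _ _ _ T G a b l s r q U hl hL hR hD v
  induction v using WellFoundedLT.induction with
  | ind v ih =>
    intro hv
    have hsnn : ∀ v, 0 ≤ s v := by
      intro v
      by_cases h : G v
      · rw [hR.s_grd v h]
      · exact (hR.s_pos v h).le
    have hIH : ∀ c ∈ T.kids v,
        1 / 30 * ∑ d with d < c, l d + s c * qf u t k (a c) (b c - q c) ≤ U c := by
      intro c hc
      refine ih c (kid_lt T hc) fun d hd => ?_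
      have h1 : b d ≤ ∑ e ∈ T.kids c, b e :=
        Finset.single_le_sum (f := fun e => b e) (fun _ _ => Nat.zero_le _) hd
      have h2 := hL.b_kids c
      have h3 := hv c hc
      omega
    have hB := fun c (hc : c ∈ T.kids v) => hBED g m A u t k hN V T G a b l s r q U hl hL hR hD c
      ((T.mem_kids v c).1 hc).1 (hv c hc) (hIH c hc)
    rw [sum_lt_kids T l v, hD.U_eq v]
    by_cases hG : G v
    · rw [hR.s_grd v hG, zero_mul, add_zero, Finset.mul_sum]
      exact Finset.sum_le_sum fun c hc => (hB c hc).1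
    · have hev := hL.kids_even v hG
      obtain ⟨-, hM⟩ := hMGR u t k hN.u_pos hN.k_pos hN.psd
      have hρ : ∀ c ∈ T.kids v, 0 < s c + l c := by
        intro c hc
        have h1 := hsnn c
        have h2 := hl c ((T.mem_kids v c).1 hc).1
        linarith
      have hM' := hM V (T.kids v) (fun c => s c + l c) (fun c => (a c : ℝ))
        (fun c => (b c : ℝ) - (s c / (s c + l c)) ^ 2 * q c) hρ
      have hs : (∑ c ∈ T.kids v, (s c + l c)⁻¹)⁻¹ = s v := by
        rw [← inv_inv (s v), hR.s_eq v hG]
        congr 1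
        exact Finset.sum_congr rfl fun c _ => by rw [add_comm]
      have ha : ∑ c ∈ T.kids v, (a c : ℝ) = a v := by exact_mod_cast hL.sum_eq v hG
      have hb : ∑ c ∈ T.kids v, ((b c : ℝ) - (s c / (s c + l c)) ^ 2 * q c) = b v - q v := by
        rw [hD.q_eq v, rho, Finset.sum_sub_distrib]
        ring
      have hM2 : s v * qf u t k (a v) (b v - q v) ≤ ∑ c ∈ T.kids v,
          (s c + l c) * qf u t k (a c) (b c - (s c / (s c + l c)) ^ 2 * q c) := by
        have h1 := hM'
        rw [hs, ha, hb] at h1
        exact h1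
      calc 1 / 30 * ∑ c ∈ T.kids v, (l c + ∑ d with d < c, l d) +
            s v * qf u t k (a v) (b v - q v)
          ≤ 1 / 30 * ∑ c ∈ T.kids v, (l c + ∑ d with d < c, l d) + ∑ c ∈ T.kids v,
            (s c + l c) * qf u t k (a c) (b c - (s c / (s c + l c)) ^ 2 * q c) := by
            linarith
        _ = ∑ c ∈ T.kids v, (1 / 30 * (l c + ∑ d with d < c, l d) +
            (s c + l c) * qf u t k (a c) (b c - (s c / (s c + l c)) ^ 2 * q c)) := by
            rw [Finset.mul_sum, Finset.sum_add_distrib]
        _ ≤ ∑ c ∈ T.kids v, YD g m A a b l s q U c :=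
            Finset.sum_le_sum fun c hc => (hB c hc).2 (hev c hc)

end Pool.Agent.MNW.H13
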